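import Pool.Agent.H60.ACN.GLO2
import Pool.Agent.H74.ACN.LDC
import Pool.Agent.H8.ACN.EXT
import Pool.Agent.H82.ACN.COL

/-!
# Finite dimensional asymptotic cones: assembly
-/

set_option autoImplicit false

namespace Pool.Agent.H60.ACN

open Pool.Agent.H60.W Filter

variable {X : Type} [MetricSpace X]

/-- uniform decompositions of doubling families with finite dimensional cones -/
theorem bcol_of_cod (hUNI : T_UNI0) {G : Set (Set X)} {k N : ℕ} {R : ℝ} (hG : CoD k G)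
    (hN : ∀ P ∈ G, Lsd N R P) (r : ℝ) (hr : 0 < r) :
    ∃ D : ℝ, ∀ A ∈ G, Bcol (k + 1) r D A := by
  have hLD := Pool.Agent.H74.ACN.pf_LDC Pool.Agent.H82.ACN.pf_COL Pool.Agent.H8.ACN.pf_EXT X G k
    N R hG
  obtain ⟨D, hD⟩ := pf_GLO0 hUNI X {B : Set X | Lsd N R B ∧ ∃ A ∈ G, B ⊆ A} k N R
    (fun A hA => hA.1) (fun A hA B hBA => ⟨fun x s hs => by
      obtain ⟨c, hc⟩ := hA.1 x s hs
      exact ⟨c, (Set.inter_subset_inter_left _ hBA).trans hc⟩, by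
      obtain ⟨A', hA', h2⟩ := hA.2
      exact ⟨A', hA', hBA.trans h2⟩⟩) hLD r hr
  exact ⟨D, fun A hA => hD A ⟨hN A hA, A, hA, subset_rfl⟩⟩

/-- `n` unions of members of a family -/
theorem bcol_union {n c : ℕ} {r D : ℝ} {G : Set (Set X)} (hG : ∀ P ∈ G, Bcol c r D P)
    (W : Fin n → Set (Set X)) (hW : ∀ i, W i ⊆ G ∧ RD r (W i)) :
    Bcol (c * n) r D (⋃ i, ⋃₀ W i) := by
  unfold Bcol at hG
  choose! V hV1 hV2 using hG
  have hsub : ∀ P ∈ G, ∀ l, ∀ Q ∈ V P l, Q ⊆ P := by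
    intro P hP l Q hQ x hx
    rw [← hV1 P hP]
    exact Set.mem_iUnion.2 ⟨l, Set.mem_sUnion.2 ⟨Q, hQ, hx⟩⟩
  refine ⟨fun j => {Q | ∃ P ∈ W (finProdFinEquiv.symm j).2, Q ∈ V P (finProdFinEquiv.symm j).1},
    ?_, fun j => ⟨?_, ?_⟩⟩
  · ext x
    simp only [Set.mem_iUnion, Set.mem_sUnion]
    constructor
    · rintro ⟨j, Q, ⟨P, hP, hQ⟩, hx⟩
      exact ⟨_, P, hP, hsub P ((hW _).1 hP) _ Q hQ hx⟩
    · rintro ⟨i, P, hP, hx⟩
      have hx' := hx
      rw [← hV1 P ((hW i).1 hP)] at hx'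
      obtain ⟨l, hl⟩ := Set.mem_iUnion.1 hx'
      obtain ⟨Q, hQ, hxQ⟩ := Set.mem_sUnion.1 hl
      refine ⟨finProdFinEquiv (l, i), Q, ⟨P, ?_, ?_⟩, hxQ⟩
      · rw [Equiv.symm_apply_apply]
        exact hP
      · rw [Equiv.symm_apply_apply]
        exact hQ
  · rintro Q ⟨P, hP, hQ⟩ Q' ⟨P', hP', hQ'⟩ hne x hx y hy
    by_cases hPP : P = P'
    · subst hPP
      exact (hV2 P ((hW _).1 hP) _).1 Q hQ Q' hQ' hne x hx y hy
    · exact (hW _).2 P hP P' hP' hPP x (hsub P ((hW _).1 hP) _ Q hQ hx) y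
        (hsub P' ((hW _).1 hP') _ Q' hQ' hy)
  · rintro Q ⟨P, hP, hQ⟩
    exact (hV2 P ((hW _).1 hP) _).2 Q hQ

/-- the main theorem for families -/
theorem main (hUNI : T_UNI0) {n k : ℕ} {F : Set (Set X)}
    (h : ∀ r : ℝ, 0 < r → ∃ (Y G : Set (Set X)) (N : ℕ) (R : ℝ), FD Y ∧ (∀ P ∈ G, Lsd N R P) ∧
      CoD k G ∧ ∀ A ∈ F, ∃ (V : Fin 2 → Set (Set X)) (W : Fin n → Set (Set X)),
        (∀ i, V i ⊆ Y ∧ RD r (V i)) ∧ (∀ i, W i ⊆ G ∧ RD r (W i)) ∧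
        A = (⋃ i, ⋃₀ V i) ∪ (⋃ i, ⋃₀ W i)) : FD F := by
  refine Kdec.fd (n := (k + 1) * n) ?_
  intro r hr
  obtain ⟨Y, G, N, R, hY, hN, hG, hF⟩ := h r hr
  obtain ⟨D, hD⟩ := bcol_of_cod hUNI hG hN r hr
  refine ⟨Y, hY, D, fun A hA => ?_⟩
  obtain ⟨V, W, hV, hW, hAV⟩ := hF A hA
  obtain ⟨W', h1, h2⟩ := bcol_union hD W hW
  exact ⟨V, W', hV, h2, by rw [hAV, h1]⟩

/-- the asymptotic dimension -/
theorem asdim (hUNI : T_UNI0) {n k : ℕ}
    (h : ∀ r : ℝ, 0 < r → ∃ (G : Set (Set X)) (N : ℕ) (R : ℝ), (∀ P ∈ G, Lsd N R P) ∧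
      CoD k G ∧ ∃ W : Fin n → Set (Set X), (∀ i, W i ⊆ G ∧ RD r (W i)) ∧
        (Set.univ : Set X) = (⋃ i, ⋃₀ W i)) : ∀ r : ℝ, 0 < r → ∃ D : ℝ,
      Bcol ((k + 1) * n) r D (Set.univ : Set X) := by
  intro r hr
  obtain ⟨G, N, R, hN, hG, W, hW, hu⟩ := h r hr
  obtain ⟨D, hD⟩ := bcol_of_cod hUNI hG hN r hr
  refine ⟨D, ?_⟩
  rw [hu]
  exact bcol_union hD W hW

theorem CoD.mono {k : ℕ} {G G' : Set (Set X)} (h : CoD k G) (hG : ∀ A ∈ G', ∃ B ∈ G, A ⊆ B) :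
    CoD k G' := by
  intro K _ _ hK
  apply h K
  obtain ⟨s, φ, h1, h2, h3⟩ := hK
  refine ⟨s, φ, h1, fun n => ?_, h3⟩
  obtain ⟨A, hA, hφ⟩ := h2 n
  obtain ⟨B, hB, hAB⟩ := hG A hA
  exact ⟨B, hB, fun x => hAB (hφ x)⟩

theorem cdim_subsingleton (K : Type) [TopologicalSpace K] [Subsingleton K] : CDim K 0 := by
  classical
  intro U _ hUo hUc
  rcases isEmpty_or_nonempty K with he | ⟨⟨x⟩⟩
  · refine ⟨∅, by simp, Set.eq_univ_of_forall fun x => he.elim x, by simp, ?_⟩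
    intro F hF hc
    have : F = ∅ := by
      ext v
      simp only [Finset.notMem_empty, iff_false]
      intro hv
      exact Set.notMem_empty v (hF hv)
    rw [this] at hc
    simp at hc
  · have hx : x ∈ ⋃₀ U := by rw [hUc]; trivial
    obtain ⟨u, hu, hxu⟩ := Set.mem_sUnion.1 hx
    refine ⟨{u}, by simpa using hUo u hu, ?_, by simpa using ⟨u, hu, subset_rfl⟩, ?_⟩
    · rw [Set.sUnion_singleton]
      exact Set.eq_univ_of_forall fun y => Subsingleton.elim x y ▸ hxu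
    · intro F hF hc
      have h1 : F ⊆ {u} := by
        intro v hv
        have := hF hv
        rw [Set.mem_singleton_iff] at this
        rw [this]
        exact Finset.mem_singleton_self u
      have h2 := Finset.card_le_card h1
      rw [hc, Finset.card_singleton] at h2
      omega

theorem cod_of_bdd {G : Set (Set X)} (h : Bdd G) : CoD 0 G := by
  intro K _ _ hK
  obtain ⟨s, φ, h1, h2, h3⟩ := hK
  obtain ⟨D, hD⟩ := h
  have : Subsingleton K := by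
    refine ⟨fun x y => ?_⟩
    by_contra hne
    have hpos : 0 < dist x y := dist_pos.2 hne
    have hev := (h3 (dist x y / 3) (by linarith)).and
      ((h1.eventually_gt_atTop 0).and (h1.eventually_ge_atTop (3 * max D 0 / dist x y)))
    obtain ⟨n, hn, hs0, hsn⟩ := hev.exists
    obtain ⟨A, hA, hφ⟩ := h2 n
    have e1 := hD A hA _ (hφ x) _ (hφ y)
    have e2 := hn x y
    rw [abs_le] at e2
    rw [div_le_iff₀ hpos] at hsn
    have e3 : dist (φ n x) (φ n y) / s n ≤ dist x y / 3 := by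
      rw [div_le_iff₀ hs0]
      have := le_max_left D 0
      nlinarith
    linarith
  exact cdim_subsingleton K

/-- finite decomposition complexity relative to the families with finite dimensional cones -/
def RelC (F : Set (Set X)) : Prop :=
  ∀ E : Set (Set (Set X)), (∀ (k : ℕ) (G : Set (Set X)), CoD k G → G ∈ E) →
    (∀ G : Set (Set X), (∀ r : ℝ, 0 < r → ∃ Y ∈ E, Dec2 r G Y) → G ∈ E) → F ∈ E

theorem relC_of_fd {F : Set (Set X)} (h : FD F) : RelC F := by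
  intro E h1 h2
  exact h E (fun G hG => h1 0 G (cod_of_bdd hG)) h2

theorem fd_of_relC (hUNI : T_UNI0) {n : ℕ} (hX : ∀ r : ℝ, 0 < r → ∃ (N : ℕ) (R : ℝ)
      (W : Fin n → Set (Set X)), (∀ i, RD r (W i) ∧ ∀ P ∈ W i, Lsd N R P) ∧
        (Set.univ : Set X) = (⋃ i, ⋃₀ W i)) {F : Set (Set X)} (hF : RelC F) : FD F := by
  refine hF {G | FD G} ?_ ?_
  · intro k G hG
    refine main hUNI (n := n) (k := k) fun r hr => ?_
    obtain ⟨N, R, W, hW, hu⟩ := hX r hr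
    refine ⟨∅, {Q | ∃ A ∈ G, ∃ i, ∃ P ∈ W i, Q = P ∩ A}, N, R, FD.of_bdd ⟨0, by simp⟩, ?_,
      hG.mono ?_, fun A hA => ⟨fun _ => ∅, fun i => (fun P => P ∩ A) '' W i,
        fun i => ⟨subset_rfl, RD.empty r⟩, fun i => ⟨?_, (hW i).1.inter A⟩, ?_⟩⟩
    · rintro _ ⟨A, hA, i, P, hP, rfl⟩ x s hs
      obtain ⟨c, hc⟩ := (hW i).2 P hP x s hs
      exact ⟨c, (Set.inter_subset_inter_left _ Set.inter_subset_left).trans hc⟩
    · rintro _ ⟨A, hA, i, P, hP, rfl⟩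
      exact ⟨A, hA, Set.inter_subset_right⟩
    · rintro _ ⟨P, hP, rfl⟩
      exact ⟨A, hA, i, P, hP, rfl⟩
    · ext x
      have hx : x ∈ (⋃ k, ⋃₀ W k) := by
        rw [← hu]
        trivial
      simp only [Set.mem_union, Set.mem_iUnion, Set.mem_sUnion, Set.mem_image,
        exists_exists_and_eq_and, Set.mem_inter_iff, Set.sUnion_empty, Set.mem_empty_iff_false,
        exists_false, false_or] at hx ⊢
      constructor
      · intro hxA
        obtain ⟨i, P, hP, hxP⟩ := hx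
        exact ⟨i, P, hP, hxP, hxA⟩
      · rintro ⟨i, P, hP, hxP, hxA⟩
        exact hxA
  · intro G hG
    exact FD.of_dec fun r hr => by
      obtain ⟨Y, hY, hd⟩ := hG r hr
      exact ⟨Y, hY, hd⟩

end Pool.Agent.H60.ACN
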