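import Pool.Agent.H60.W.Final

/-!
# Spaces with finite dimensional asymptotic cones (MP_1c101a_gt): definitions and targets of the
board acn_modules

`RD r U` (distinct members of `U` have distance at least `r`), `Lsd N R W` (`W` is
`(N, R)`-large scale doubling), `FD` (finite decomposition complexity) and the lemmas
`Lsd.cover`, `Lsd.colours`, `exists_net` are in `Pool/Agent/H60/W/{Basic,Lsd,Final}.lean`.
-/

set_option autoImplicit false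

namespace Pool.Agent.H60.ACN

open Pool.Agent.H60.W Filter

/-! ## Definitions -/

/-- `K` has covering dimension at most `k`: every finite open cover has an open refinement such
that no point lies in `k + 2` members. -/
def CDim (K : Type) [TopologicalSpace K] (k : ℕ) : Prop :=
  ∀ U : Set (Set K), U.Finite → (∀ u ∈ U, IsOpen u) → ⋃₀ U = Set.univ →
    ∃ V : Set (Set K), (∀ v ∈ V, IsOpen v) ∧ ⋃₀ V = Set.univ ∧ (∀ v ∈ V, ∃ u ∈ U, v ⊆ u) ∧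
      ∀ F : Finset (Set K), (F : Set (Set K)) ⊆ V → F.card = k + 2 → ∀ x, ∃ v ∈ F, x ∉ v

/-- `K` is asymptotically contained in members of `G`: there are scales `s n → ∞` and maps of `K`
to members of `G` which multiply the distances by `s n (1 + o(1))`, uniformly. (So `K` embeds
isometrically in an asymptotic cone.) -/
def Asy {X : Type} [MetricSpace X] (G : Set (Set X)) (K : Type) [MetricSpace K] : Prop :=
  ∃ (s : ℕ → ℝ) (φ : ℕ → K → X), Tendsto s atTop atTop ∧ (∀ n, ∃ A ∈ G, ∀ x, φ n x ∈ A) ∧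
    ∀ ε : ℝ, 0 < ε → ∀ᶠ n in atTop, ∀ x y, |dist (φ n x) (φ n y) / s n - dist x y| ≤ ε

/-- the compact subspaces of the asymptotic cones have dimension at most `k` -/
def CoD {X : Type} [MetricSpace X] (k : ℕ) (G : Set (Set X)) : Prop :=
  ∀ (K : Type) [MetricSpace K] [CompactSpace K], Asy G K → CDim K k

/-- `A` is the union of `c` `r`-disjoint unions of sets of diameter at most `D`. -/
def Bcol {X : Type} [MetricSpace X] (c : ℕ) (r D : ℝ) (A : Set X) : Prop :=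
  ∃ V : Fin c → Set (Set X), (⋃ i, ⋃₀ V i) = A ∧
    ∀ i, RD r (V i) ∧ ∀ P ∈ V i, ∀ x ∈ P, ∀ y ∈ P, dist x y ≤ D

/-- local decompositions at one scale -/
def LD {X : Type} [MetricSpace X] (k : ℕ) (U : Set (Set X)) : Prop :=
  ∀ L : ℝ, 1 ≤ L → ∃ c s₀ : ℝ, 0 < c ∧ c ≤ 1 ∧ ∀ s : ℝ, s₀ ≤ s → 0 < s → ∀ B ∈ U,
    (∀ x ∈ B, ∀ y ∈ B, dist x y ≤ L * s) → Bcol (k + 1) (c * s) s B

/-! ## Targets -/

/-- COL. Compact spaces of dimension at most `k`: `k + 1` colours. -/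
def T_COL : Prop := ∀ (K : Type) [MetricSpace K] [CompactSpace K] (k : ℕ), CDim K k →
  ∀ ε : ℝ, 0 < ε → ∃ γ : ℝ, 0 < γ ∧ Bcol (k + 1) γ ε (Set.univ : Set K)

/-- EXT. Rescaled doubling sets have compact limits. -/
def T_EXT : Prop := ∀ (X : Type) [MetricSpace X] (N : ℕ) (R L : ℝ) (s : ℕ → ℝ) (B : ℕ → Set X),
  Tendsto s atTop atTop → (∀ j, 0 < s j) → (∀ j, Lsd N R (B j)) → (∀ j, (B j).Nonempty) →
  (∀ j, ∀ x ∈ B j, ∀ y ∈ B j, dist x y ≤ L * s j) →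
  ∃ (K : Type) (_ : MetricSpace K) (_ : CompactSpace K) (θ : ℕ → ℕ) (φ : ℕ → K → X)
    (ψ : ℕ → X → K) (e : ℕ → ℝ), StrictMono θ ∧ Tendsto e atTop (nhds 0) ∧
    ∀ n, (∀ x, φ n x ∈ B (θ n)) ∧ (∀ x y, |dist (φ n x) (φ n y) / s (θ n) - dist x y| ≤ e n) ∧
      ∀ b ∈ B (θ n), dist (φ n (ψ n b)) b ≤ e n * s (θ n)

/-- LDC. Local decompositions from the dimension of the limits. -/
def T_LDC : Prop := ∀ (X : Type) [MetricSpace X] (G : Set (Set X)) (k N : ℕ) (R : ℝ), CoD k G →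
  LD k {B : Set X | Lsd N R B ∧ ∃ A ∈ G, B ⊆ A}

/-- UNI. The union of two disjoint families. -/
def T_UNI : Prop := ∀ (X : Type) [MetricSpace X] (V W : Set (Set X)) (D d r r' : ℝ), 0 < r →
  0 ≤ d → 2 * d + 3 * r ≤ r' → RD r' V → RD r W → (∀ P ∈ V, ∀ x ∈ P, ∀ y ∈ P, dist x y ≤ D) →
  (∀ P ∈ W, ∀ x ∈ P, ∀ y ∈ P, dist x y ≤ d) →
  ∃ U : Set (Set X), ⋃₀ U = ⋃₀ V ∪ ⋃₀ W ∧ RD r U ∧
    ∀ P ∈ U, ∀ x ∈ P, ∀ y ∈ P, dist x y ≤ D + 2 * d + 2 * r

/-- GLO. From local to global decompositions. -/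
def T_GLO : Prop := ∀ (X : Type) [MetricSpace X] (U : Set (Set X)) (k N : ℕ) (R : ℝ),
  (∀ A ∈ U, Lsd N R A) → (∀ A ∈ U, ∀ B, B ⊆ A → B ∈ U) → LD k U →
  ∀ r : ℝ, 0 < r → ∃ D : ℝ, ∀ A ∈ U, Bcol (k + 1) r D A

/-- SPL. Bounded colours from doubling colours. -/
def T_SPL : Prop := ∀ (X : Type) [MetricSpace X] (G : Set (Set X)) (k : ℕ), CoD k G →
  ∀ (N : ℕ) (R r : ℝ), 0 < r → ∃ D : ℝ, ∀ A ∈ G, ∀ (n : ℕ) (W : Fin n → Set (Set X)),
    (∀ i, RD r (W i) ∧ ∀ P ∈ W i, Lsd N R P) →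
    Bcol ((k + 1) * n) r D (A ∩ (⋃ i, ⋃₀ W i))

end Pool.Agent.H60.ACN
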